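import Mathlib

/-!
# The line is sub scale invariant

For every `k ≥ 1` and every `k`-net `N` of the line graph on `ℤ` the constant `C_k` is exactly `1`.
-/

set_option autoImplicit false

open Filter Topology

namespace Pool.Agent.Results.MP_6f70ff_gt.LineSubScaleInvariant

/-- A `k`-net of `G`: a set of vertices, maximal under inclusion among the sets with pairwise
distances at least `k`. -/
def IsNet {V : Type} (G : SimpleGraph V) (k : ℕ) (N : Set V) : Prop :=
  Maximal (fun S : Set V => ∀ u ∈ S, ∀ v ∈ S, u ≠ v → k ≤ G.dist u v) N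

/-- The `k`-net graph on `N`: two vertices are adjacent iff `0 < d(u,v) ≤ 2k`. -/
def netGraph {V : Type} (G : SimpleGraph V) (k : ℕ) (N : Set V) : SimpleGraph N where
  Adj u v := 0 < G.dist (u : V) v ∧ G.dist (u : V) v ≤ 2 * k
  symm := ⟨fun u v h => by rw [G.dist_comm]; exact h⟩
  loopless := ⟨fun u h => by simp at h⟩

/-- `f` is a `C`-rough isometry of the vertex sets of two connected graphs with the graph
distances. -/
def IsRoughIsometry {V W : Type} (G : SimpleGraph V) (H : SimpleGraph W) (C : ℝ) (f : V → W) :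
    Prop :=
  (∀ x y, C⁻¹ * (H.dist (f x) (f y) : ℝ) - C ≤ G.dist x y ∧
    (G.dist x y : ℝ) ≤ C * (H.dist (f x) (f y) : ℝ) + C) ∧
  ∀ y, ∃ x, (H.dist (f x) y : ℝ) < C

/-- The infimum of the `C > 0` for which there is a `C`-rough isometry. -/
noncomputable def roughConst {V W : Type} (G : SimpleGraph V) (H : SimpleGraph W) : ℝ :=
  sInf {C : ℝ | 0 < C ∧ ∃ f : V → W, IsRoughIsometry G H C f}

/-- The graph is vertex transitive. -/
def VertexTransitive {V : Type} (G : SimpleGraph V) : Prop := ∀ u v, ∃ e : G ≃g G, e u = v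

/-- `C_k → 1` for every choice of the `k`-net graphs `G_k`, one for each `k ≥ 1`. -/
def SubScaleInvariant {V : Type} (G : SimpleGraph V) : Prop :=
  ∀ N : ℕ → Set V, (∀ k, 1 ≤ k → IsNet G k (N k)) →
    Tendsto (fun k => roughConst G (netGraph G k (N k))) atTop (𝓝 1)

/-- The bi-infinite line. -/
def line : SimpleGraph ℤ where
  Adj a b := |a - b| = 1
  symm := ⟨fun a b h => by rw [abs_sub_comm]; exact h⟩
  loopless := ⟨fun a h => by simp at h⟩

/-! ### Distances in the line -/

lemma walk_line {a b : ℤ} (p : line.Walk a b) : |a - b| ≤ p.length := by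
  induction p with
  | nil => simp
  | @cons u v w h q ih =>
    have h' : |u - v| = 1 := h
    rw [SimpleGraph.Walk.length_cons]
    push_cast
    calc |u - w| ≤ |u - v| + |v - w| := abs_sub_le u v w
      _ ≤ (q.length : ℤ) + 1 := by rw [h']; linarith

lemma exists_walk_nat (a : ℤ) (n : ℕ) : ∃ p : line.Walk a (a + n), p.length = n := by
  induction n with
  | zero => exact ⟨(SimpleGraph.Walk.nil : line.Walk a a).copy rfl (by simp), by simp⟩
  | succ n ih =>
    obtain ⟨p, hp⟩ := ih
    have hadj : line.Adj (a + n) (a + (n + 1 : ℕ)) := by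
      show |a + n - (a + (n + 1 : ℕ))| = 1
      push_cast
      rw [show a + n - (a + (n + 1)) = -(1 : ℤ) by ring]
      simp
    exact ⟨p.concat hadj, by rw [SimpleGraph.Walk.length_concat, hp]⟩

lemma line_connected : line.Connected := by
  have h : ∀ a b : ℤ, a ≤ b → line.Reachable a b := by
    intro a b hab
    obtain ⟨n, hn⟩ := Int.eq_ofNat_of_zero_le (sub_nonneg.2 hab)
    obtain ⟨p, -⟩ := exists_walk_nat a n
    have : a + n = b := by omega
    rw [this] at p
    exact ⟨p⟩
  refine ⟨fun a b => ?_⟩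
  rcases le_total a b with hab | hab
  · exact h a b hab
  · exact (h b a hab).symm

lemma line_dist (a b : ℤ) : (line.dist a b : ℤ) = |a - b| := by
  apply le_antisymm
  · have key : ∀ a b : ℤ, a ≤ b → (line.dist a b : ℤ) ≤ b - a := by
      intro a b hab
      obtain ⟨n, hn⟩ := Int.eq_ofNat_of_zero_le (sub_nonneg.2 hab)
      obtain ⟨p, hp⟩ := exists_walk_nat a n
      have e : a + n = b := by omega
      rw [e] at p
      have hb : b = a + n := e.symm
      subst hb
      obtain ⟨p, hp⟩ := exists_walk_nat a n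
      have := line.dist_le p
      rw [hp] at this
      have h2 : (line.dist a (a + n) : ℤ) ≤ (n : ℤ) := by exact_mod_cast this
      linarith
    rcases le_total a b with hab | hab
    · rw [abs_of_nonpos (by linarith)]
      linarith [key a b hab]
    · rw [abs_of_nonneg (by linarith), line.dist_comm]
      exact key b a hab
  · obtain ⟨p, hp⟩ := line_connected.exists_walk_length_eq_dist a b
    rw [← hp]
    exact walk_line p

/-! ### Nets of the line -/

section Net

variable {k : ℕ} {N : Set ℤ}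

lemma net_near (hk : 1 ≤ k) (hN : IsNet line k N) (z : ℤ) : ∃ u ∈ N, |z - u| < k := by
  by_contra hcon
  push Not at hcon
  have hz : z ∉ N := by
    intro h
    have := hcon z h
    simp at this
    omega
  have hins : ∀ u ∈ insert z N, ∀ v ∈ insert z N, u ≠ v → k ≤ line.dist u v := by
    intro u hu v hv huv
    rcases Set.mem_insert_iff.1 hu with rfl | hu'
    · rcases Set.mem_insert_iff.1 hv with rfl | hv'
      · exact absurd rfl huv
      · have h1 := hcon v hv'
        rw [← line_dist] at h1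
        exact_mod_cast h1
    · rcases Set.mem_insert_iff.1 hv with rfl | hv'
      · have h1 := hcon u hu'
        rw [← line_dist, line.dist_comm] at h1
        exact_mod_cast h1
      · exact hN.prop u hu' v hv' huv
  have h2 := hN.le_of_ge hins (Set.subset_insert z N)
  exact hz (h2 (Set.mem_insert z N))

lemma exists_next (hk : 1 ≤ k) (hN : IsNet line k N) (u : N) : ∃ v : N, (u : ℤ) < v ∧
    (v : ℤ) ≤ u + 2 * k ∧ ∀ w : N, (w : ℤ) ≤ u + 2 * k → (w : ℤ) ≤ v := by
  obtain ⟨v0, hv0, h0⟩ := net_near hk hN ((u : ℤ) + k)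
  rw [abs_lt] at h0
  obtain ⟨m, hm, hmax⟩ := Int.exists_greatest_of_bdd (P := fun z => z ∈ N ∧ z ≤ (u : ℤ) + 2 * k)
    ⟨(u : ℤ) + 2 * k, fun z hz => hz.2⟩ ⟨v0, hv0, by omega⟩
  refine ⟨⟨m, hm.1⟩, ?_, hm.2, fun w hw => hmax w ⟨w.2, hw⟩⟩
  have := hmax v0 ⟨hv0, by omega⟩
  show (u : ℤ) < m
  omega

lemma exists_prev (hk : 1 ≤ k) (hN : IsNet line k N) (u : N) : ∃ v : N, (v : ℤ) < u ∧
    (u : ℤ) - 2 * k ≤ v ∧ ∀ w : N, (u : ℤ) - 2 * k ≤ w → (v : ℤ) ≤ w := by
  obtain ⟨v0, hv0, h0⟩ := net_near hk hN ((u : ℤ) - k)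
  rw [abs_lt] at h0
  obtain ⟨m, hm, hmin⟩ := Int.exists_least_of_bdd (P := fun z => z ∈ N ∧ (u : ℤ) - 2 * k ≤ z)
    ⟨(u : ℤ) - 2 * k, fun z hz => hz.2⟩ ⟨v0, hv0, by omega⟩
  refine ⟨⟨m, hm.1⟩, ?_, hm.2, fun w hw => hmin w ⟨w.2, hw⟩⟩
  have := hmin v0 ⟨hv0, by omega⟩
  show m < (u : ℤ)
  omega

/-- the two-sided greedy sequence -/
lemma exists_greedy (hk : 1 ≤ k) (hN : IsNet line k N) : ∃ f : ℤ → N,
    (∀ m, (f m : ℤ) < f (m + 1)) ∧ (∀ m, (f (m + 1) : ℤ) ≤ f m + 2 * k) ∧
    (∀ m, 0 ≤ m → ∀ w : N, (w : ℤ) ≤ f m + 2 * k → (w : ℤ) ≤ f (m + 1)) ∧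
    (∀ m, m ≤ 0 → ∀ w : N, (f m : ℤ) - 2 * k ≤ w → (f (m - 1) : ℤ) ≤ w) := by
  obtain ⟨u0, hu0, -⟩ := net_near hk hN 0
  choose nx hn1 hn2 hn3 using exists_next hk hN
  choose pv hp1 hp2 hp3 using exists_prev hk hN
  set a : ℕ → N := fun n => nx^[n] ⟨u0, hu0⟩ with ha
  set b : ℕ → N := fun n => pv^[n] ⟨u0, hu0⟩ with hb
  have ha' : ∀ n, a (n + 1) = nx (a n) := fun n => Function.iterate_succ_apply' _ _ _
  have hb' : ∀ n, b (n + 1) = pv (b n) := fun n => Function.iterate_succ_apply' _ _ _
  have hab : a 0 = b 0 := rfl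
  set f : ℤ → N := fun m => if 0 ≤ m then a m.toNat else b (-m).toNat with hf
  have f1 : ∀ n : ℕ, f n = a n := by
    intro n
    simp [hf]
  have f2 : ∀ n : ℕ, f (-n) = b n := by
    intro n
    by_cases h : n = 0
    · subst h; simp [hf, hab]
    · have : ¬ (0 ≤ -(n : ℤ)) := by omega
      simp only [hf, if_neg this]
      congr 1
      omega
  have g1 : ∀ m : ℤ, 0 ≤ m → f (m + 1) = nx (f m) := by
    intro m hm
    obtain ⟨n, rfl⟩ := Int.eq_ofNat_of_zero_le hm
    rw [show ((n : ℤ) + 1) = ((n + 1 : ℕ) : ℤ) by push_cast; ring, f1, f1, ha']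
  have g2 : ∀ m : ℤ, m ≤ 0 → f (m - 1) = pv (f m) := by
    intro m hm
    obtain ⟨n, hn⟩ := Int.eq_ofNat_of_zero_le (show (0 : ℤ) ≤ -m by omega)
    have hm' : m = -(n : ℤ) := by omega
    subst hm'
    rw [show (-(n : ℤ) - 1) = -((n + 1 : ℕ) : ℤ) by push_cast; ring, f2, f2, hb']
  refine ⟨f, fun m => ?_, fun m => ?_, fun m hm w hw => ?_, fun m hm w hw => ?_⟩
  · rcases le_or_gt 0 m with h | h
    · rw [g1 m h]; exact hn1 _
    · have := hp1 (f (m + 1))
      rw [← g2 (m + 1) (by omega), add_sub_cancel_right] at this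
      exact this
  · rcases le_or_gt 0 m with h | h
    · rw [g1 m h]; exact hn2 _
    · have := hp2 (f (m + 1))
      rw [← g2 (m + 1) (by omega), add_sub_cancel_right] at this
      omega
  · rw [g1 m hm]; exact hn3 _ w hw
  · rw [g2 m hm]; exact hp3 _ w hw

lemma adj_iff (u v : N) : (netGraph line k N).Adj u v ↔
    (u : ℤ) ≠ v ∧ |(u : ℤ) - v| ≤ 2 * k := by
  show (0 < line.dist (u : ℤ) v ∧ line.dist (u : ℤ) v ≤ 2 * k) ↔ _
  have h := line_dist (u : ℤ) v
  constructor
  · rintro ⟨h1, h2⟩
    refine ⟨fun h3 => ?_, ?_⟩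
    · rw [h3] at h1
      simp at h1
    · rw [← h]; exact_mod_cast h2
  · rintro ⟨h1, h2⟩
    rw [← h] at h2
    refine ⟨?_, by exact_mod_cast h2⟩
    rcases Nat.eq_zero_or_pos (line.dist (u : ℤ) v) with h3 | h3
    · rw [h3] at h
      exfalso
      apply h1
      have : |(u : ℤ) - v| = 0 := by rw [← h]; rfl
      linarith [abs_eq_zero.1 this]
    · exact h3

/-- the main facts about a net graph of the line -/
lemma main_facts (hk : 1 ≤ k) (hN : IsNet line k N) :
    (netGraph line k N).Connected ∧ ∃ f : ℤ → N,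
      (∀ m n : ℤ, ((netGraph line k N).dist (f m) (f n) : ℤ) ≤ |m - n|) ∧
      (∀ m n : ℤ, |m - n| ≤ (netGraph line k N).dist (f m) (f n) + 1) ∧
      ∀ y, ∃ m, (netGraph line k N).dist (f m) y ≤ 1 := by
  obtain ⟨f, h1, h2, h3, h4⟩ := exists_greedy hk hN
  set G := netGraph line k N with hG
  have hmono : StrictMono (fun m => (f m : ℤ)) := strictMono_int_of_lt_succ h1
  have hadj : ∀ m, G.Adj (f m) (f (m + 1)) := by
    intro m
    rw [hG, adj_iff]
    have := h1 m
    have := h2 m
    refine ⟨by omega, ?_⟩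
    rw [abs_le]; constructor <;> omega
  have hwalk : ∀ (m : ℤ) (n : ℕ), ∃ p : G.Walk (f m) (f (m + n)), p.length = n := by
    intro m n
    induction n with
    | zero => exact ⟨(SimpleGraph.Walk.nil : G.Walk (f m) (f m)).copy rfl (by simp), by simp⟩
    | succ n ih =>
      obtain ⟨p, hp⟩ := ih
      have hn : G.Adj (f (m + n)) (f (m + (n + 1 : ℕ))) := by
        have := hadj (m + n)
        rwa [show m + n + 1 = m + (n + 1 : ℕ) by push_cast; ring] at this
      exact ⟨p.concat hn, by rw [SimpleGraph.Walk.length_concat, hp]⟩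
  have hlin : ∀ n : ℕ, (f 0 : ℤ) + n ≤ f n := by
    intro n
    induction n with
    | zero => simp
    | succ n ih =>
      have := h1 n
      push_cast
      omega
  have hlin' : ∀ n : ℕ, (f (-n) : ℤ) + n ≤ f 0 := by
    intro n
    induction n with
    | zero => simp
    | succ n ih =>
      have := h1 (-((n + 1 : ℕ) : ℤ))
      rw [show (-((n + 1 : ℕ) : ℤ)) + 1 = -(n : ℤ) by push_cast; ring] at this
      push_cast at this ⊢
      omega
  have hnear : ∀ y : N, ∃ m : ℤ, (f m : ℤ) ≤ y ∧ (y : ℤ) < f (m + 1) := by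
    intro y
    obtain ⟨m, hm, hmax⟩ := Int.exists_greatest_of_bdd (P := fun m => (f m : ℤ) ≤ y)
      ⟨((y : ℤ) - f 0).natAbs, fun z hz => by
        by_contra hcon
        push Not at hcon
        have hz0 : 0 ≤ z := by omega
        obtain ⟨n, rfl⟩ := Int.eq_ofNat_of_zero_le hz0
        have := hlin n
        omega⟩
      ⟨-(((y : ℤ) - f 0).natAbs : ℤ), by
        have := hlin' (((y : ℤ) - f 0).natAbs)
        omega⟩
    refine ⟨m, hm, ?_⟩
    by_contra hcon
    push Not at hcon
    have := hmax (m + 1) hcon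
    omega
  have hnear2 : ∀ y : N, ∃ m : ℤ, G.Adj (f m) y ∨ f m = y := by
    intro y
    obtain ⟨m, hm1, hm2⟩ := hnear y
    refine ⟨m, ?_⟩
    by_cases he : (f m : ℤ) = y
    · exact Or.inr (Subtype.ext he)
    · left
      rw [hG, adj_iff]
      refine ⟨he, ?_⟩
      have := h2 m
      rw [abs_le]; constructor <;> omega
  have hreach : ∀ m n : ℤ, G.Reachable (f m) (f n) := by
    have key : ∀ m n : ℤ, m ≤ n → G.Reachable (f m) (f n) := by
      intro m n hmn
      obtain ⟨j, hj⟩ := Int.eq_ofNat_of_zero_le (sub_nonneg.2 hmn)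
      have e : n = m + j := by omega
      subst e
      obtain ⟨p, -⟩ := hwalk m j
      exact ⟨p⟩
    intro m n
    rcases le_total m n with h | h
    · exact key m n h
    · exact (key n m h).symm
  have hconn : G.Connected := by
    have : Nonempty N := ⟨f 0⟩
    refine ⟨fun x y => ?_⟩
    obtain ⟨m, hm⟩ := hnear2 x
    obtain ⟨n, hn⟩ := hnear2 y
    have e1 : G.Reachable (f m) x := by
      rcases hm with h | h
      · exact h.reachable
      · rw [h]
    have e2 : G.Reachable (f n) y := by
      rcases hn with h | h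
      · exact h.reachable
      · rw [h]
    exact (e1.symm.trans (hreach m n)).trans e2
  refine ⟨hconn, f, ?_, ?_, ?_⟩
  · have key : ∀ m n : ℤ, m ≤ n → (G.dist (f m) (f n) : ℤ) ≤ n - m := by
      intro m n hmn
      obtain ⟨j, hj⟩ := Int.eq_ofNat_of_zero_le (sub_nonneg.2 hmn)
      have e : n = m + j := by omega
      subst e
      obtain ⟨p, hp⟩ := hwalk m j
      have := G.dist_le p
      rw [hp] at this
      have h2 : (G.dist (f m) (f (m + j)) : ℤ) ≤ (j : ℤ) := by exact_mod_cast this
      linarith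
    intro m n
    rcases le_total m n with h | h
    · rw [abs_of_nonpos (by linarith)]
      linarith [key m n h]
    · rw [abs_of_nonneg (by linarith), G.dist_comm]
      exact key n m h
  · -- the potential
    set Q : ℤ → N → Prop := fun n v => (0 ≤ n ∧ (v : ℤ) ≤ f (n + 1)) ∨ (n < 0 ∧ (v : ℤ) < f (n + 1))
      with hQ
    have hstep : ∀ (n : ℤ) (u v : N), G.Adj u v → Q n u → Q (n + 1) v := by
      intro n u v huv hu
      rw [hG, adj_iff] at huv
      obtain ⟨-, huv⟩ := huv
      rw [abs_le] at huv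
      rcases hu with ⟨hn, hu⟩ | ⟨hn, hu⟩
      · left
        refine ⟨by omega, h3 (n + 1) (by omega) v (by omega)⟩
      · rcases lt_or_ge n (-1) with hn' | hn'
        · right
          refine ⟨by omega, ?_⟩
          by_contra hcon
          push Not at hcon
          have := h4 (n + 1 + 1) (by omega) u (by omega)
          rw [add_sub_cancel_right] at this
          omega
        · left
          have e : n = -1 := by omega
          subst e
          refine ⟨by omega, ?_⟩
          exact h3 0 le_rfl v (by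
            have : (f (-1 + 1) : ℤ) = f 0 := by norm_num
            omega)
    have hmonoQ : ∀ (m n : ℤ) (v : N), m ≤ n → Q m v → Q n v := by
      intro m n v hmn hm
      have hle : (f (m + 1) : ℤ) ≤ f (n + 1) := hmono.monotone (by omega)
      rcases hm with ⟨a1, a2⟩ | ⟨a1, a2⟩
      · exact Or.inl ⟨by omega, by omega⟩
      · rcases lt_or_ge n 0 with hn | hn
        · exact Or.inr ⟨hn, by omega⟩
        · exact Or.inl ⟨hn, by omega⟩
    have hwalkQ : ∀ {u v : N} (p : G.Walk u v) (n : ℤ), Q n u → Q (n + p.length) v := by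
      intro u v p
      induction p with
      | nil => intro n h; simpa using h
      | @cons u v w h q ih =>
        intro n hn
        have := ih (n + 1) (hstep n u v h hn)
        rw [SimpleGraph.Walk.length_cons]
        push_cast
        rwa [show n + ((q.length : ℤ) + 1) = n + 1 + q.length by ring]
    have key : ∀ m n : ℤ, m ≤ n → n - m ≤ G.dist (f m) (f n) + 1 := by
      intro m n hmn
      rcases hmn.eq_or_lt with rfl | hlt
      · simp
      obtain ⟨p, hp⟩ := hconn.exists_walk_length_eq_dist (f m) (f n)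
      -- the starting index
      have hs : Q (if m ≤ 0 then m else m - 1) (f m) := by
        split_ifs with h
        · rcases h.eq_or_lt with rfl | h'
          · exact Or.inl ⟨le_rfl, (h1 0).le⟩
          · exact Or.inr ⟨h', h1 m⟩
        · exact Or.inl ⟨by omega, by rw [sub_add_cancel]⟩
      have he : ¬ Q (if n ≤ 0 then n - 1 else n - 2) (f n) := by
        split_ifs with h
        · rintro (⟨a1, a2⟩ | ⟨a1, a2⟩)
          · omega
          · rw [sub_add_cancel] at a2; exact lt_irrefl _ a2
        · rintro (⟨a1, a2⟩ | ⟨a1, a2⟩)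
          · have : (f (n - 2 + 1) : ℤ) < f n := hmono (by omega)
            omega
          · have : (f (n - 2 + 1) : ℤ) < f n := hmono (by omega)
            omega
      have h5 := hwalkQ p _ hs
      rw [hp] at h5
      by_contra hcon
      push Not at hcon
      apply he
      refine hmonoQ _ _ _ ?_ h5
      split_ifs <;> omega
    intro m n
    rcases le_total m n with h | h
    · rw [abs_of_nonpos (by linarith)]
      linarith [key m n h]
    · rw [abs_of_nonneg (by linarith), G.dist_comm]
      exact key n m h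
  · intro y
    obtain ⟨m, hm⟩ := hnear2 y
    refine ⟨m, ?_⟩
    rcases hm with h | h
    · rw [SimpleGraph.dist_eq_one_iff_adj.2 h]
    · rw [h]; simp

/-- the constant is exactly one -/
theorem roughConst_eq (hk : 1 ≤ k) (hN : IsNet line k N) :
    roughConst line (netGraph line k N) = 1 := by
  obtain ⟨-, f, h1, h2, h3⟩ := main_facts hk hN
  set G := netGraph line k N with hG
  have hmem : ∀ C : ℝ, 1 < C → C ∈ {C : ℝ | 0 < C ∧ ∃ f : ℤ → N, IsRoughIsometry line G C f} := by
    intro C hC
    refine ⟨by linarith, f, fun x y => ?_, fun y => ?_⟩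
    · have a1 : (G.dist (f x) (f y) : ℝ) ≤ line.dist x y := by
        have := h1 x y
        rw [← line_dist] at this
        exact_mod_cast this
      have a2 : (line.dist x y : ℝ) ≤ G.dist (f x) (f y) + 1 := by
        have := h2 x y
        rw [← line_dist] at this
        exact_mod_cast this
      have a3 : (0 : ℝ) ≤ G.dist (f x) (f y) := Nat.cast_nonneg _
      constructor
      · have : C⁻¹ * (G.dist (f x) (f y) : ℝ) ≤ 1 * (G.dist (f x) (f y) : ℝ) := by
          apply mul_le_mul_of_nonneg_right _ a3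
          exact inv_le_one_of_one_le₀ hC.le
        linarith
      · nlinarith
    · obtain ⟨m, hm⟩ := h3 y
      refine ⟨m, ?_⟩
      have : (G.dist (f m) y : ℝ) ≤ 1 := by exact_mod_cast hm
      linarith
  apply le_antisymm
  · apply le_of_forall_gt
    intro C hC
    obtain ⟨D, hD1, hD2⟩ := exists_between hC
    refine lt_of_le_of_lt (csInf_le ⟨0, fun x hx => hx.1.le⟩ (hmem D hD1)) hD2
  · apply le_csInf ⟨2, hmem 2 (by norm_num)⟩
    rintro C ⟨hC0, φ, hφ, -⟩
    by_contra hC1
    push Not at hC1
    -- distances would be bounded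
    have hb : ∀ n : ℕ, (n : ℝ) * (1 - C ^ 2) ≤ C ^ 3 + C := by
      intro n
      obtain ⟨a1, a2⟩ := hφ 0 n
      have hd : (line.dist 0 (n : ℤ) : ℝ) = n := by
        have := line_dist 0 n
        rw [zero_sub, abs_neg, Nat.abs_cast] at this
        exact_mod_cast this
      rw [hd] at a1 a2
      set D := (G.dist (φ 0) (φ n) : ℝ) with hD
      have a3 : D ≤ C * (n + C) := by
        have : C⁻¹ * D ≤ n + C := by linarith
        have h5 := mul_le_mul_of_nonneg_left this hC0.le
        rwa [← mul_assoc, mul_inv_cancel₀ hC0.ne', one_mul] at h5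
      have a4 : C * D ≤ C * (C * (n + C)) := mul_le_mul_of_nonneg_left a3 hC0.le
      nlinarith
    have hpos : 0 < 1 - C ^ 2 := by nlinarith
    obtain ⟨n, hn⟩ := exists_nat_gt ((C ^ 3 + C) / (1 - C ^ 2))
    rw [div_lt_iff₀ hpos] at hn
    linarith [hb n]

end Net

lemma line_transitive : VertexTransitive line := by
  intro u v
  refine ⟨⟨Equiv.addRight (v - u), ?_⟩, ?_⟩
  · intro a b
    show |(a + (v - u)) - (b + (v - u))| = 1 ↔ |a - b| = 1
    rw [add_sub_add_right_eq_sub]
  · show u + (v - u) = v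
    ring

lemma line_locallyFinite (v : ℤ) : (line.neighborSet v).Finite := by
  refine (Set.toFinite ({v - 1, v + 1} : Set ℤ)).subset ?_
  intro w hw
  have h : |v - w| = 1 := hw
  rcases abs_eq (by norm_num : (0 : ℤ) ≤ 1) |>.1 h with h | h
  · left; omega
  · right
    show w = v + 1
    omega

/-- There is an infinite, connected, locally finite, vertex transitive graph which is sub scale
invariant: the line, for which `C_k = 1` for all `k ≥ 1` and all `k`-nets. -/
theorem result : ∃ (V : Type) (G : SimpleGraph V), Infinite V ∧ G.Connected ∧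
    (∀ v, (G.neighborSet v).Finite) ∧ VertexTransitive G ∧ SubScaleInvariant G ∧
    ∀ (k : ℕ) (N : Set V), 1 ≤ k → IsNet G k N →
      (netGraph G k N).Connected ∧ roughConst G (netGraph G k N) = 1 := by
  refine ⟨ℤ, line, inferInstance, line_connected, line_locallyFinite, line_transitive, ?_, ?_⟩
  · intro N hN
    apply tendsto_const_nhds.congr'
    filter_upwards [eventually_ge_atTop 1] with k hk
    exact (roughConst_eq hk (hN k hk)).symm
  · intro k N hk hN
    exact ⟨(main_facts hk hN).1, roughConst_eq hk hN⟩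

end Pool.Agent.Results.MP_6f70ff_gt.LineSubScaleInvariant
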